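import Pool.Agent.Helper89.Vol4.Goals

/-! # MP_cd13d2_co, packet V47-DENS: generic tuples are dense -/

set_option autoImplicit false

namespace Pool.Agent.Helper39.Vol4.PkDENS

open Pool.Agent.Helper86.Poly Pool.Agent.Helper89.Vol4 Polynomial

/-- seven points of the moment curve -/
noncomputable def mp (k : Fin 7) : E 4 := !₂[((k : ℕ) : ℝ), ((k : ℕ) : ℝ) ^ 2, ((k : ℕ) : ℝ) ^ 3, ((k : ℕ) : ℝ) ^ 4]

theorem mom (i j : Fin 7) (h : i ≠ j) : Dt mp i j ≠ 0 := by
  intro h0
  unfold Dt W at h0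
  obtain ⟨v, hv, hM⟩ := Matrix.exists_mulVec_eq_zero_iff.mpr h0
  apply hv
  have e : ∀ k : Fin 7, v 0 + (k : ℕ) * v 1 + ((k : ℕ) : ℝ) ^ 2 * v 2 + ((k : ℕ) : ℝ) ^ 3 * v 3 +
      ((k : ℕ) : ℝ) ^ 4 * v 4 +
      (if k = i then 1 else 0) * v 5 + (if k = j then 1 else 0) * v 6 = 0 := by
    intro k
    have := congrFun hM k
    simp only [Matrix.mulVec, dotProduct, Matrix.of_apply, Fin.sum_univ_succ, mp, Pi.single_apply] at this
    simpa [add_assoc, Fin.sum_univ_succ] using this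
  clear hM h0 hv
  obtain ⟨p, hpd⟩ : ∃ p : ℝ[X], p = C (v 0) + C (v 1) * X + C (v 2) * X ^ 2 + C (v 3) * X ^ 3 +
    C (v 4) * X ^ 4 := ⟨_, rfl⟩
  have hdeg : p.degree < 5 := by
    rw [hpd]
    refine lt_of_le_of_lt (b := (4 : WithBot ℕ)) (by compute_degree) (by decide)
  have hp : p = 0 := by
    refine Polynomial.eq_zero_of_degree_lt_of_eval_finset_eq_zero
      (s := (Finset.univ \ {i, j} : Finset (Fin 7)).image fun k : Fin 7 => ((k : ℕ) : ℝ)) ?_ ?_
    · rw [Finset.card_image_of_injective, Finset.card_sdiff_of_subset (Finset.subset_univ _),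
        Finset.card_pair h, Finset.card_univ, Fintype.card_fin]
      · exact hdeg
      · intro a b hab
        have hab' : ((a : ℕ) : ℝ) = ((b : ℕ) : ℝ) := hab
        exact Fin.ext (by exact_mod_cast hab')
    · intro x hx
      obtain ⟨k, hk, rfl⟩ := Finset.mem_image.1 hx
      rw [Finset.mem_sdiff, Finset.mem_insert, Finset.mem_singleton, not_or] at hk
      have := e k
      rw [if_neg hk.2.1, if_neg hk.2.2] at this
      rw [hpd]
      simp only [eval_add, eval_mul, eval_C, eval_X, eval_pow]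
      linarith
  have hc : ∀ m, p.coeff m = 0 := fun m => by rw [hp, coeff_zero]
  have c0 : v 0 = 0 := by simpa [hpd, coeff_X, coeff_X_pow, coeff_C] using hc 0
  have c1 : v 1 = 0 := by simpa [hpd, coeff_X, coeff_X_pow, coeff_C] using hc 1
  have c2 : v 2 = 0 := by simpa [hpd, coeff_X, coeff_X_pow, coeff_C] using hc 2
  have c3 : v 3 = 0 := by simpa [hpd, coeff_X, coeff_X_pow, coeff_C] using hc 3
  have c4 : v 4 = 0 := by simpa [hpd, coeff_X, coeff_X_pow, coeff_C] using hc 4
  have c5 : v 5 = 0 := by simpa [c0, c1, c2, c3, c4, h] using e i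
  have c6 : v 6 = 0 := by simpa [c0, c1, c2, c3, c4, h.symm] using e j
  funext k
  fin_cases k <;> simpa

/-- the segment from `x` to `y` -/
noncomputable def seg (x y : Fin 7 → E 4) (t : ℝ) : Fin 7 → E 4 := fun k => x k + t • (y k - x k)

/-- the matrix over the polynomials -/
noncomputable def PM (x y : Fin 7 → E 4) (i j : Fin 7) : Matrix (Fin 7) (Fin 7) ℝ[X] :=
  Matrix.of fun k => ![1, C (x k 0) + X * C (y k 0 - x k 0), C (x k 1) + X * C (y k 1 - x k 1),
    C (x k 2) + X * C (y k 2 - x k 2), C (x k 3) + X * C (y k 3 - x k 3), C ((Pi.single i 1 : Fin 7 → ℝ) k), C ((Pi.single j 1 : Fin 7 → ℝ) k)]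

theorem evalPM (x y : Fin 7 → E 4) (i j : Fin 7) (t : ℝ) :
    (PM x y i j).det.eval t = Dt (seg x y t) i j := by
  rw [← coe_evalRingHom, RingHom.map_det]
  unfold Dt W
  congr 1
  ext k c
  fin_cases c <;> simp [PM, seg]

theorem thm : G_DENS := by
  intro x δ hδ
  set P : ℝ[X] := ∏ i : Fin 7, ∏ j : Fin 7, if i = j then 1 else (PM x mp i j).det with hP
  have hP1 : P ≠ 0 := by
    intro h
    have h1 : P.eval 1 = 0 := by rw [h]; simp
    rw [hP, eval_prod, Finset.prod_eq_zero_iff] at h1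
    obtain ⟨i, -, hi⟩ := h1
    rw [eval_prod, Finset.prod_eq_zero_iff] at hi
    obtain ⟨j, -, hj⟩ := hi
    by_cases hij : i = j
    · simp [hij] at hj
    · rw [if_neg hij, evalPM] at hj
      apply mom i j hij
      rw [← hj]
      congr 1
      funext k
      simp [seg]
  obtain ⟨M, hM0, hM⟩ : ∃ M : ℝ, 0 < M ∧ ∀ k, ‖mp k - x k‖ ≤ M := by
    refine ⟨1 + ∑ k, ‖mp k - x k‖,
      add_pos_of_pos_of_nonneg one_pos (Finset.sum_nonneg fun _ _ => norm_nonneg _), fun k => ?_⟩
    have h2 : ‖mp k - x k‖ ≤ ∑ k, ‖mp k - x k‖ :=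
      Finset.single_le_sum (f := fun k => ‖mp k - x k‖) (fun _ _ => norm_nonneg _)
        (Finset.mem_univ k)
    linarith
  have hinf : (Set.Ioo (0 : ℝ) (δ / M)).Infinite := Set.Ioo_infinite (by positivity)
  obtain ⟨t, ht, htP⟩ : ∃ t ∈ Set.Ioo (0 : ℝ) (δ / M), P.eval t ≠ 0 := by
    by_contra hcon
    simp only [not_exists, not_and, not_not] at hcon
    apply hinf
    refine Set.Finite.subset (P.roots.toFinset.finite_toSet) ?_
    intro t ht
    simp only [Multiset.mem_toFinset, Finset.mem_coe]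
    exact (mem_roots hP1).mpr (hcon t ht)
  refine ⟨seg x mp t, fun k => ?_, fun i j hij h0 => ?_⟩
  · have : dist (x k) (seg x mp t k) = t * ‖mp k - x k‖ := by
      rw [dist_eq_norm]
      have : x k - seg x mp t k = -(t • (mp k - x k)) := by simp [seg]
      rw [this, norm_neg, norm_smul, Real.norm_of_nonneg ht.1.le]
    rw [this]
    calc t * ‖mp k - x k‖ ≤ t * M := mul_le_mul_of_nonneg_left (hM k) ht.1.le
      _ < δ := by rw [← lt_div_iff₀ hM0]; exact ht.2
  · apply htP
    rw [hP, eval_prod]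
    apply Finset.prod_eq_zero (Finset.mem_univ i)
    rw [eval_prod]
    apply Finset.prod_eq_zero (Finset.mem_univ j)
    rw [if_neg hij, evalPM, h0]

end Pool.Agent.Helper39.Vol4.PkDENS
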